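import Pool.Agent.Helper89.VE.Defs

set_option autoImplicit false

/-!
Project OS: if the discriminant sextic of the first projection is smooth then the discriminant of
the second projection is not identically zero.
-/

namespace Pool.Agent.Helper29.OS

open MvPolynomial Pool.Agent.Helper29.HP Pool.Agent.Helper89.VE

theorem adj_par {K : Type*} [CommRing K] (M : Matrix (Fin 3) (Fin 3) K) (hM : M.IsSymm)
    (u : Fin 3 → K) (h : M.mulVec u = 0) (i k j : Fin 3) :
    M.adjugate i j * u k = M.adjugate k j * u i := by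
  have h10 : M 0 1 = M 1 0 := hM.apply 1 0
  have h20 : M 0 2 = M 2 0 := hM.apply 2 0
  have h21 : M 1 2 = M 2 1 := hM.apply 2 1
  have e0 := congrFun h 0
  have e1 := congrFun h 1
  have e2 := congrFun h 2
  simp only [Matrix.mulVec, dotProduct, Fin.sum_univ_three, Pi.zero_apply] at e0 e1 e2
  rw [← h10] at e1
  rw [← h20, ← h21] at e2
  rw [Matrix.adjugate_fin_three]
  fin_cases i <;> fin_cases k <;> fin_cases j <;>
    simp [← h10, ← h20, ← h21] <;>
    first
    | ring1
    | linear_combination (M 0 0) * e1 - (M 0 1) * e0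
    | linear_combination (M 0 1) * e1 - (M 1 1) * e0
    | linear_combination (M 0 2) * e1 - (M 1 2) * e0
    | linear_combination (M 0 0) * e2 - (M 0 2) * e0
    | linear_combination (M 0 1) * e2 - (M 1 2) * e0
    | linear_combination (M 0 2) * e2 - (M 2 2) * e0
    | linear_combination (M 0 1) * e2 - (M 0 2) * e1
    | linear_combination (M 1 1) * e2 - (M 1 2) * e1
    | linear_combination (M 1 2) * e2 - (M 2 2) * e1
    | linear_combination -(M 0 0) * e1 + (M 0 1) * e0
    | linear_combination -(M 0 1) * e1 + (M 1 1) * e0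
    | linear_combination -(M 0 2) * e1 + (M 1 2) * e0
    | linear_combination -(M 0 0) * e2 + (M 0 2) * e0
    | linear_combination -(M 0 1) * e2 + (M 1 2) * e0
    | linear_combination -(M 0 2) * e2 + (M 2 2) * e0
    | linear_combination -(M 0 1) * e2 + (M 0 2) * e1
    | linear_combination -(M 1 1) * e2 + (M 1 2) * e1
    | linear_combination -(M 1 2) * e2 + (M 2 2) * e1

/-- the adjugate of a symmetric matrix with kernel vector `u` -/
theorem adj_eq_of_ker {K : Type*} [Field K] (M : Matrix (Fin 3) (Fin 3) K) (hM : M.IsSymm)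
    (u : Fin 3 → K) (hu : u ≠ 0) (h : M.mulVec u = 0) :
    ∃ c : K, ∀ i j, M.adjugate i j = c * (u i * u j) := by
  have hA : ∀ i j, M.adjugate i j = M.adjugate j i := by
    intro i j
    have h1 : M.adjugate.IsSymm := by
      rw [Matrix.IsSymm, Matrix.adjugate_transpose, hM.eq]
    exact h1.apply j i
  have key : ∀ i j k l, M.adjugate i j * (u k * u l) = M.adjugate k l * (u i * u j) := by
    intro i j k l
    have h1 := adj_par M hM u h i k j
    have h2 := adj_par M hM u h j l k
    rw [hA j k, hA l k] at h2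
    linear_combination (u l) * h1 + (u i) * h2
  obtain ⟨p, hp⟩ := Function.ne_iff.mp hu
  have hp : u p ≠ 0 := hp
  refine ⟨M.adjugate p p / (u p * u p), fun i j => ?_⟩
  rw [div_mul_eq_mul_div, eq_div_iff (mul_ne_zero hp hp)]
  exact key i j p p

/-- derivative of a three by three determinant -/
theorem pderiv_det3 (M : Matrix (Fin 3) (Fin 3) P3) (i : Fin 3) :
    pderiv i M.det = ∑ k, ∑ l, M.adjugate l k * pderiv i (M k l) := by
  rw [Matrix.det_fin_three, Matrix.adjugate_fin_three]
  simp only [Fin.sum_univ_three, map_add, map_sub, Derivation.leibniz, smul_eq_mul]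
  simp
  ring

theorem eval_NU (a : Cof) (u : Fin 3 → ℂ) (i j : Fin 3) :
    eval u (NU a i j) = ∑ k, ∑ l, a i j k l * (u k * u l) := by
  simp [NU]

theorem eval_MX (a : Cof) (x : Fin 3 → ℂ) (k l : Fin 3) :
    eval x (MX a k l) = ∑ i, ∑ j, a i j k l * (x i * x j) := by
  simp [MX]

theorem eval_pderiv_MX {a : Cof} (ha : a.Symm) (x : Fin 3 → ℂ) (i k l : Fin 3) :
    eval x (pderiv i (MX a k l)) = 2 * ∑ j, a i j k l * x j := by
  have h : MX a k l = ∑ i, ∑ j, C (a i j k l) * (X i * X j) := rfl
  rw [h]
  simp only [map_sum, Derivation.leibniz, pderiv_X, smul_eq_mul, pderiv_C, mul_zero, add_zero,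
    map_mul, eval_C, map_add, eval_X]
  have h01 := ha.1 0 1 k l
  have h02 := ha.1 0 2 k l
  have h12 := ha.1 1 2 k l
  fin_cases i <;> simp [Fin.sum_univ_three, Pi.single_apply, h01, h02, h12] <;> ring

/-- the discriminant of the second projection does not vanish identically -/
theorem det_NU_ne_zero {a : Cof} (ha : a.Symm)
    (hsm : ∀ z : Fin 3 → ℂ, z ≠ 0 → eval z (MX a).det = 0 →
      ∃ i, eval z (pderiv i (MX a).det) ≠ 0) : (NU a).det ≠ 0 := by
  intro hdet
  obtain ⟨e, he, hNe⟩ := Matrix.exists_mulVec_eq_zero_iff.mpr hdet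
  -- the vector `e(u)` is a kernel vector of `N(u)`, and `M(e(u))` kills `u`
  have hrow : ∀ i, ∑ j, NU a i j * e j = 0 := fun i => congrFun hNe i
  have hquad : ∑ i, ∑ j, NU a i j * (e i * e j) = 0 := by
    have h1 : ∑ i, ∑ j, NU a i j * (e i * e j) = ∑ i, e i * ∑ j, NU a i j * e j := by
      refine Finset.sum_congr rfl fun i _ => ?_
      rw [Finset.mul_sum]
      exact Finset.sum_congr rfl fun j _ => by ring
    rw [h1]
    exact Finset.sum_eq_zero fun i _ => by rw [hrow, mul_zero]
  have hcol : ∀ j, ∑ i, NU a i j * e i = 0 := by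
    intro j
    have h1 : ∑ i, NU a i j * e i = ∑ i, NU a j i * e i :=
      Finset.sum_congr rfl fun i _ => by rw [(NU_symm ha).apply]
    rw [h1, hrow]
  have hder : ∀ k, ∑ i, ∑ j, pderiv k (NU a i j) * (e i * e j) = 0 := by
    intro k
    have h1 := congrArg (pderiv k) hquad
    rw [map_zero, map_sum] at h1
    have h2 : ∀ i, pderiv k (∑ j, NU a i j * (e i * e j)) =
        ∑ j, pderiv k (NU a i j) * (e i * e j) + pderiv k (e i) * ∑ j, NU a i j * e j +
        ∑ j, NU a i j * e i * pderiv k (e j) := by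
      intro i
      rw [map_sum, Finset.mul_sum, ← Finset.sum_add_distrib, ← Finset.sum_add_distrib]
      refine Finset.sum_congr rfl fun j _ => ?_
      simp only [Derivation.leibniz, smul_eq_mul]
      ring
    simp only [h2, hrow, mul_zero, add_zero, Finset.sum_add_distrib] at h1
    have h3 : ∑ i, ∑ j, NU a i j * e i * pderiv k (e j) = 0 := by
      rw [Finset.sum_comm]
      refine Finset.sum_eq_zero fun j _ => ?_
      rw [← Finset.sum_mul, hcol, zero_mul]
    rw [h3, add_zero] at h1
    exact h1
  -- choose a point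
  obtain ⟨p, hp⟩ := Function.ne_iff.mp he
  have hp : e p ≠ 0 := hp
  have hpX : e p * X 0 ≠ 0 := mul_ne_zero hp (X_ne_zero 0)
  obtain ⟨u, hu⟩ : ∃ u : Fin 3 → ℂ, eval u (e p * X 0) ≠ 0 := by
    by_contra hcon
    push Not at hcon
    exact hpX (MvPolynomial.funext fun u => by rw [hcon u, map_zero])
  rw [map_mul, eval_X] at hu
  have hup := left_ne_zero_of_mul hu
  have hu0 : u ≠ 0 := by
    intro h
    exact right_ne_zero_of_mul hu (by rw [h]; rfl)
  set x : Fin 3 → ℂ := fun i => eval u (e i) with hx
  have hx0 : x ≠ 0 := fun h => hup (congrFun h p)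
  have hNx : ∀ i, ∑ j, (∑ k, ∑ l, a i j k l * (u k * u l)) * x j = 0 := by
    intro i
    have h1 := congrArg (eval u) (hrow i)
    rw [map_sum, map_zero] at h1
    rw [← h1]
    exact Finset.sum_congr rfl fun j _ => by rw [map_mul, eval_NU]
  have hMu : ((MX a).map (eval x)).mulVec u = 0 := by
    funext k
    have h1 := congrArg (eval u) (hder k)
    rw [map_zero] at h1
    simp only [map_sum, map_mul] at h1
    have h2 : ∀ i j, eval u (pderiv k (NU a i j)) = 2 * ∑ l, a i j k l * u l := by
      intro i j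
      have h : NU a i j = ∑ k, ∑ l, C (a i j k l) * (X k * X l) := rfl
      rw [h]
      simp only [map_sum, Derivation.leibniz, pderiv_X, smul_eq_mul, pderiv_C, mul_zero, add_zero,
        map_mul, eval_C, map_add, eval_X]
      have h01 := ha.2 i j 0 1
      have h02 := ha.2 i j 0 2
      have h12 := ha.2 i j 1 2
      fin_cases k <;> simp [Fin.sum_univ_three, Pi.single_apply, h01, h02, h12] <;> ring
    simp only [h2] at h1
    simp only [Matrix.mulVec, dotProduct, Matrix.map_apply, eval_MX, Pi.zero_apply]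
    have h3 : (2 : ℂ) * ∑ l, (∑ i, ∑ j, a i j k l * (x i * x j)) * u l = 0 := by
      rw [← h1]
      simp only [Finset.mul_sum, Finset.sum_mul]
      rw [Finset.sum_comm]
      refine Finset.sum_congr rfl fun i _ => ?_
      rw [Finset.sum_comm]
      refine Finset.sum_congr rfl fun j _ => Finset.sum_congr rfl fun l _ => ?_
      ring
    exact (mul_eq_zero.mp h3).resolve_left two_ne_zero
  have hMs : ((MX a).map (eval x)).IsSymm := by
    rw [Matrix.IsSymm, ← Matrix.transpose_map, (MX_symm ha).eq]
  have hdx : eval x (MX a).det = 0 := by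
    have h1 : eval x (MX a).det = ((MX a).map (eval x)).det := RingHom.map_det (eval x) (MX a)
    rw [h1]
    exact Matrix.exists_mulVec_eq_zero_iff.mp ⟨u, hu0, hMu⟩
  obtain ⟨c, hc⟩ := adj_eq_of_ker _ hMs u hu0 hMu
  obtain ⟨i, hi⟩ := hsm x hx0 hdx
  apply hi
  rw [pderiv_det3]
  simp only [map_sum, map_mul, eval_pderiv_MX ha]
  have hadj : ∀ k l, eval x ((MX a).adjugate l k) = c * (u l * u k) := by
    intro k l
    rw [← hc]
    have h1 := RingHom.map_adjugate (eval x) (MX a)
    exact congrFun (congrFun h1 l) k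
  simp only [hadj]
  have h4 := hNx i
  have h5 : ∑ k, ∑ l, c * (u l * u k) * (2 * ∑ j, a i j k l * x j) =
      2 * c * ∑ j, (∑ k, ∑ l, a i j k l * (u k * u l)) * x j := by
    simp only [Finset.mul_sum, Finset.sum_mul]
    rw [Finset.sum_comm_cycle]
    refine Finset.sum_congr rfl fun j _ => Finset.sum_congr rfl fun k _ =>
      Finset.sum_congr rfl fun l _ => ?_
    ring
  rw [h5, h4, mul_zero]

end Pool.Agent.Helper29.OS
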