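import Pool.Agent.Helper89.OS.Main
import Pool.Agent.Helper89.OS.St.X18
import Pool.Agent.Helper29.HP.Final

set_option autoImplicit false

/-!
The one-sided theorem for splitting curves of odd degree, in the language of the cubic form and the
matrix of its quadric surface bundle.
-/

namespace Pool.Agent.Helper29.OS

open MvPolynomial Module Pool.Agent.Helper29.HP

theorem sig_congr {d : P3} {μ : P3} {k : ℕ} (I : Ideal P3) (hI : I = Ideal.span {d})
    (P : P3 → P3 → Prop) (hP : ∀ s G, P s G ↔ d ∣ s ^ 2 - μ * G) :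
    finrank ℂ (Submodule.span ℂ {f : P3 ⧸ I | ∃ s G : P3, s.IsHomogeneous (k + 3) ∧
      G.IsHomogeneous 3 ∧ P s G ∧ Ideal.Quotient.mk I s = f}) = finrank ℂ (Sig d μ k) := by
  subst hI
  have h : {f : P3 ⧸ Ideal.span {d} | ∃ s G : P3, s.IsHomogeneous (k + 3) ∧
      G.IsHomogeneous 3 ∧ P s G ∧ Ideal.Quotient.mk (Ideal.span {d}) s = f} =
      {f | ∃ s G : P3, s.IsHomogeneous (k + 3) ∧ G.IsHomogeneous 3 ∧
        d ∣ s ^ 2 - μ * G ∧ Ideal.Quotient.mk (Ideal.span {d}) s = f} := by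
    ext f
    simp only [Set.mem_ofPred_eq, hP]
  rw [h]
  rfl

/-- the one-sided theorem -/
theorem rational_of_odd (F : MvPolynomial (Fin 6) ℂ) (hF : F.IsHomogeneous 3)
    (hs : ∀ x : Fin 6 → ℂ, x ≠ 0 → ∃ i, eval x (pderiv i F) ≠ 0)
    (w : Basis (Fin 3 ⊕ Fin 3) ℂ (Fin 6 → ℂ))
    (N : Matrix (Fin 4) (Fin 4) (MvPolynomial (Fin 3) ℂ)) (hN : N.IsSymm)
    (hQ : ∀ (y z : Fin 3 → ℂ) (s : ℂ),
      eval (∑ i, y i • w (.inl i) + s • ∑ i, z i • w (.inr i)) F =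
        s * ∑ i, ∑ j, eval z (N i j) * (![y 0, y 1, y 2, s] : Fin 4 → ℂ) i *
          (![y 0, y 1, y 2, s] : Fin 4 → ℂ) j)
    (hD : ∀ z : Fin 3 → ℂ, z ≠ 0 → eval z N.det = 0 → ∃ i, eval z (pderiv i N.det) ≠ 0)
    (k : ℕ) (μ : MvPolynomial (Fin 3) ℂ) (hμ : μ.IsHomogeneous (2 * k + 3)) (hμi : Irreducible μ)
    (hsp : ∃ g h, ¬ μ ∣ h ∧ μ ∣ g ^ 2 - N.det * h ^ 2)
    (hμD : ∀ z : Fin 3 → ℂ, z ≠ 0 → eval z μ = 0 → eval z N.det = 0 →
      ∃ i, eval z (pderiv i μ) ≠ 0)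
    (hev : Even (finrank ℂ (Submodule.span ℂ {f : MvPolynomial (Fin 3) ℂ ⧸ Ideal.span {N.det} |
      ∃ s G : MvPolynomial (Fin 3) ℂ, s.IsHomogeneous (k + 3) ∧ G.IsHomogeneous 3 ∧
        N.det ∣ s ^ 2 - μ * G ∧ Ideal.Quotient.mk (Ideal.span {N.det}) s = f}))) :
    (Ideal.span {aeval (Fin.cons 1 X : Fin 6 → MvPolynomial (Fin 5) ℂ) F}).IsPrime ∧
      Nonempty (FractionRing (MvPolynomial (Fin 5) ℂ ⧸
          Ideal.span {aeval (Fin.cons 1 X : Fin 6 → MvPolynomial (Fin 5) ℂ) F}) ≃ₐ[ℂ]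
        FractionRing (MvPolynomial (Fin 4) ℂ)) := by
  obtain ⟨c, hP, hNc, hr⟩ := exists_cub F hF hs w N hN hQ
  apply hr
  have hdet : N.det = C 81 * c.disc := by rw [hNc, three_smul_det]; rfl
  have h81 : (81 : ℂ) ≠ 0 := by norm_num
  have hsm := smooth_scale hdet hD
  have hδh : c.disc.IsHomogeneous 6 := c.disc_hom
  have hirr : Irreducible c.disc := irreducible_of_smooth (by norm_num) hδh hsm
  have hI : (Ideal.span {N.det} : Ideal P3) = Ideal.span {c.disc} := by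
    rw [hdet]
    exact Ideal.span_singleton_mul_left_unit (isUnit_CC h81) _
  have hev' : Even (finrank ℂ (Sig c.disc μ k)) := by
    have h1 := sig_congr (d := c.disc) (μ := μ) (k := k) (Ideal.span {N.det}) hI
      (fun s G => N.det ∣ s ^ 2 - μ * G) (fun s G => by rw [hdet, C_dvd_iff h81])
    rw [← h1]
    exact hev
  have hμδ : ¬ c.disc ∣ μ := by
    rintro ⟨q, hq⟩
    have hq0 : q ≠ 0 := by
      rintro rfl
      exact hμi.ne_zero (by rw [hq, mul_zero])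
    obtain ⟨a, b, ha, hb, hab⟩ := Helper16.hom_factor (hq ▸ hμ) (mul_ne_zero hirr.ne_zero hq0)
    have h1 : a = 6 := ha.inj_right hδh hirr.ne_zero
    rcases hμi.isUnit_or_isUnit hq with hu | hu
    · exact hirr.not_isUnit hu
    · exact (hu.map (eval (0 : Fin 3 → ℂ))).ne_zero (hom_eval_zero hb (by omega))
  have hev0 : ∀ z : Fin 3 → ℂ, eval z c.disc = 0 → eval z N.det = 0 := by
    intro z hz
    rw [hdet, map_mul, hz, mul_zero]
  obtain ⟨g, h, hh, hgh⟩ := hsp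
  obtain ⟨e, g', h', hg', hh', hgh', hz⟩ := Pool.Agent.Helper89.OS.exists_gh hμ hμi hδh hirr hμδ
    ⟨g, C 9 * h, fun hd => hh (by
      have h1 : IsUnit (C 9 : P3) := isUnit_CC (by norm_num)
      exact (h1.dvd_mul_left).mp hd), by
      have e1 : g ^ 2 - c.disc * (C 9 * h) ^ 2 = g ^ 2 - N.det * h ^ 2 := by
        rw [hdet]
        have e2 : (C 81 : P3) = C 9 * C 9 := by rw [← C_mul]; norm_num
        rw [e2]; ring
      rw [e1]; exact hgh⟩
    (fun z hz h1 h2 => hμD z hz h1 (hev0 z h2))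
  exact Pool.Agent.Helper89.OS.one_sided hP hsm hμ hμi hg' hh' hgh' hz hev'

end Pool.Agent.Helper29.OS
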