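import Mathlib
import Pool.Agent.Helper16.CubicQB
import Pool.Agent.Helper29.HP.Defs
import Pool.Agent.Helper16.CubicDec

set_option autoImplicit false

/-!
A zero of the quadratic form of the quadric surface bundle with arbitrary polynomial coordinates
gives one with homogeneous coordinates, hence a rational section.
-/

namespace Pool.Agent.Helper29.OS

open MvPolynomial Pool.Agent.Helper29.HP Pool.Agent.Helper16

theorem scal_coeff (p : P3) (k : ℕ) : (scal p).coeff k = homogeneousComponent k p := by
  conv_lhs => rw [← sum_homogeneousComponent p]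
  rw [map_sum, Polynomial.finsetSum_coeff]
  have h1 : ∀ i ∈ Finset.range (p.totalDegree + 1),
      (scal (homogeneousComponent i p)).coeff k = if k = i then homogeneousComponent k p else 0 := by
    intro i _
    rw [scal_hom (homogeneousComponent_isHomogeneous i p), mul_comm, Polynomial.coeff_C_mul,
      Polynomial.coeff_X_pow]
    split_ifs with h
    · rw [h, mul_one]
    · rw [mul_zero]
  rw [Finset.sum_congr rfl h1, Finset.sum_ite_eq]
  split_ifs with h
  · rfl
  · symm
    apply homogeneousComponent_eq_zero
    rw [Finset.mem_range] at h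
    omega

theorem scal_inj {p : P3} (h : scal p = 0) : p = 0 := by
  apply MvPolynomial.funext
  intro z
  have := eval_scal 1 z p
  rw [h, one_smul] at this
  simpa using this.symm

/-- the top coefficients of a zero of a quadratic form form a zero -/
theorem top_zero {R ι : Type*} [CommRing R] [Fintype ι] (N : Matrix ι ι R)
    (u : ι → Polynomial R) (T : ℕ) (hT : ∀ i, (u i).natDegree ≤ T)
    (h : ∑ i, ∑ j, u i * (Polynomial.C (N i j) * u j) = 0) :
    (fun i => (u i).coeff T) ⬝ᵥ N.mulVec (fun i => (u i).coeff T) = 0 := by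
  have h1 := congrArg (fun q => Polynomial.coeff q (T + T)) h
  simp only [Polynomial.finsetSum_coeff, Polynomial.coeff_zero] at h1
  simp only [dotProduct, Matrix.mulVec, Finset.mul_sum]
  rw [← h1]
  refine Finset.sum_congr rfl fun i _ => Finset.sum_congr rfl fun j _ => ?_
  rw [Polynomial.coeff_mul_add_eq_of_natDegree_le (hT i)
    ((Polynomial.natDegree_C_mul_le _ _).trans (hT j)), Polynomial.coeff_C_mul]

theorem rat4_of_poly_section {c : Cub (I6 → ℂ)} (hP : c.Iso P0) (v : Fin 4 → P3) (hv : v ≠ 0)
    (h0 : v ⬝ᵥ (c.Nm (X : Fin 3 → P3)).mulVec v = 0) : c.Rat4 := by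
  classical
  set N := c.Nm (X : Fin 3 → P3) with hN
  let e : Fin 4 → ℕ := ![0, 0, 0, 1]
  let u : Fin 4 → Polynomial P3 := fun i => Polynomial.X ^ e i * scal (v i)
  have hNs : ∀ i j, scal (N i j) = Polynomial.X ^ (1 + e i + e j) * Polynomial.C (N i j) := by
    intro i j
    rcases c.Nm_hz i j with h | ⟨-, h⟩
    · rw [hN, h, map_zero, map_zero, mul_zero]
    · have h1 : (3 - wt i - wt j).toNat = 1 + e i + e j := by
        fin_cases i <;> fin_cases j <;> simp [wt, e]
      rw [h1] at h
      exact scal_hom h
  have hu : ∑ i, ∑ j, u i * (Polynomial.C (N i j) * u j) = 0 := by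
    have h1 : (Polynomial.X : Polynomial P3) * ∑ i, ∑ j, u i * (Polynomial.C (N i j) * u j) =
        scal (v ⬝ᵥ N.mulVec v) := by
      simp only [dotProduct, Matrix.mulVec, map_sum, map_mul, Finset.mul_sum, hNs]
      refine Finset.sum_congr rfl fun i _ => Finset.sum_congr rfl fun j _ => ?_
      simp only [u]
      ring
    rw [h0, map_zero] at h1
    exact (mul_eq_zero.mp h1).resolve_left Polynomial.X_ne_zero
  let T := Finset.univ.sup fun i => (u i).natDegree
  have hT : ∀ i, (u i).natDegree ≤ T := fun i =>
    Finset.le_sup (f := fun i => (u i).natDegree) (Finset.mem_univ i)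
  have htop := top_zero N u T hT hu
  have hne : (fun i => (u i).coeff T) ≠ 0 := by
    obtain ⟨i, hi⟩ := Function.ne_iff.mp hv
    have hi : v i ≠ 0 := hi
    have hui : ∀ j, u j = 0 ↔ v j = 0 := by
      intro j
      constructor
      · intro h
        rcases mul_eq_zero.mp h with h | h
        · exact absurd h (pow_ne_zero _ Polynomial.X_ne_zero)
        · exact scal_inj h
      · intro h
        simp only [u, h, map_zero, mul_zero]
    obtain ⟨j, -, hj⟩ := Finset.exists_mem_eq_sup (Finset.univ : Finset (Fin 4)) ⟨i, Finset.mem_univ i⟩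
      fun i => (u i).natDegree
    intro hz
    by_cases hT0 : T = 0
    · have h1 : u i = 0 := by
        have h2 := Polynomial.eq_C_of_natDegree_eq_zero (Nat.le_zero.mp (hT0 ▸ hT i))
        have h3 := congrFun hz i
        simp only [hT0, Pi.zero_apply] at h3
        rw [h2, h3, map_zero]
      exact hi ((hui i).mp h1)
    · have h3 := congrFun hz j
      have hj' : T = (u j).natDegree := hj
      simp only [hj', Pi.zero_apply] at h3
      have h4 : u j = 0 := Polynomial.leadingCoeff_eq_zero.mp h3
      rw [h4, Polynomial.natDegree_zero] at hj'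
      exact hT0 hj'
  refine Cub.rat4_of_section hP (D := T) (fun i => X 0 * (u i).coeff T) ?_ ?_ ?_
  · intro i
    have h1 : (u i).coeff T = if e i ≤ T then homogeneousComponent (T - e i) (v i) else 0 := by
      simp only [u]
      rw [Polynomial.coeff_X_pow_mul', scal_coeff]
    have hw : (![1, 1, 1, 0] : Fin 4 → ℕ) i + e i = 1 := by
      fin_cases i <;> simp [e]
    change (X 0 * (u i).coeff T : P3).IsHomogeneous _
    rw [h1]
    split_ifs with h
    · have h2 := (isHomogeneous_X ℂ (0 : Fin 3)).mul
        (homogeneousComponent_isHomogeneous (T - e i) (v i))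
      have h3 : 1 + (T - e i) = T + (![1, 1, 1, 0] : Fin 4 → ℕ) i := by omega
      rwa [h3] at h2
    · rw [mul_zero]; exact isHomogeneous_zero _ _ _
  · rw [Cub.nf_eq_dot]
    have h1 : (fun i => X 0 * (u i).coeff T : Fin 4 → P3) = (X 0 : P3) • fun i => (u i).coeff T := by
      funext i
      rfl
    rw [h1, Matrix.mulVec_smul, smul_dotProduct, dotProduct_smul]
    erw [htop]
    simp
  · intro h
    apply hne
    funext i
    have h1 := congrFun h i
    exact (mul_eq_zero.mp h1).resolve_left (X_ne_zero 0)

end Pool.Agent.Helper29.OS
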