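import Pool.Agent.Helper29.OS.Final
import Pool.Agent.Helper29.OS.SecPoly
import Pool.Agent.Helper5.HP.Final2

set_option autoImplicit false

/-!
Both degrees in one statement: the quadric surface bundle has a rational section, or there is a
splitting curve whose theta characteristic is even.
-/

namespace Pool.Agent.Helper29.OS

open MvPolynomial Module Pool.Agent.Helper29.HP

/-- a rational section, in the language of the cubic form (Hassett) -/
theorem rational_of_section (F : MvPolynomial (Fin 6) ℂ) (hF : F.IsHomogeneous 3)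
    (hs : ∀ x : Fin 6 → ℂ, x ≠ 0 → ∃ i, eval x (pderiv i F) ≠ 0)
    (w : Basis (Fin 3 ⊕ Fin 3) ℂ (Fin 6 → ℂ))
    (N : Matrix (Fin 4) (Fin 4) (MvPolynomial (Fin 3) ℂ)) (hN : N.IsSymm)
    (hQ : ∀ (y z : Fin 3 → ℂ) (s : ℂ),
      eval (∑ i, y i • w (.inl i) + s • ∑ i, z i • w (.inr i)) F =
        s * ∑ i, ∑ j, eval z (N i j) * (![y 0, y 1, y 2, s] : Fin 4 → ℂ) i *
          (![y 0, y 1, y 2, s] : Fin 4 → ℂ) j)
    (v : Fin 4 → MvPolynomial (Fin 3) ℂ) (hv : v ≠ 0) (h0 : v ⬝ᵥ N.mulVec v = 0) :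
    (Ideal.span {aeval (Fin.cons 1 X : Fin 6 → MvPolynomial (Fin 5) ℂ) F}).IsPrime ∧
      Nonempty (FractionRing (MvPolynomial (Fin 5) ℂ ⧸
          Ideal.span {aeval (Fin.cons 1 X : Fin 6 → MvPolynomial (Fin 5) ℂ) F}) ≃ₐ[ℂ]
        FractionRing (MvPolynomial (Fin 4) ℂ)) := by
  obtain ⟨c, hP, hNc, hr⟩ := exists_cub F hF hs w N hN hQ
  apply hr
  refine rat4_of_poly_section hP v hv ?_
  rw [hNc, Matrix.smul_mulVec, dotProduct_smul, smul_eq_mul] at h0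
  have h3 : (3 : P3) ≠ 0 := by norm_num
  exact (mul_eq_zero.mp h0).resolve_left h3

/-- the theorem for both degrees -/
theorem rational_of_splitting (F : MvPolynomial (Fin 6) ℂ) (hF : F.IsHomogeneous 3)
    (hs : ∀ x : Fin 6 → ℂ, x ≠ 0 → ∃ i, eval x (pderiv i F) ≠ 0)
    (w : Basis (Fin 3 ⊕ Fin 3) ℂ (Fin 6 → ℂ))
    (N : Matrix (Fin 4) (Fin 4) (MvPolynomial (Fin 3) ℂ)) (hN : N.IsSymm)
    (hQ : ∀ (y z : Fin 3 → ℂ) (s : ℂ),
      eval (∑ i, y i • w (.inl i) + s • ∑ i, z i • w (.inr i)) F =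
        s * ∑ i, ∑ j, eval z (N i j) * (![y 0, y 1, y 2, s] : Fin 4 → ℂ) i *
          (![y 0, y 1, y 2, s] : Fin 4 → ℂ) j)
    (hD : ∀ z : Fin 3 → ℂ, z ≠ 0 → eval z N.det = 0 → ∃ i, eval z (pderiv i N.det) ≠ 0)
    (k : ℕ) (μ ρ : MvPolynomial (Fin 3) ℂ) (hμi : Irreducible μ) (hμN : ¬ N.det ∣ μ)
    (hsp : ∃ g h, ¬ μ ∣ h ∧ μ ∣ g ^ 2 - N.det * h ^ 2)
    (hμD : ∀ z : Fin 3 → ℂ, z ≠ 0 → eval z μ = 0 → eval z N.det = 0 →
      ∃ i, eval z (pderiv i μ) ≠ 0)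
    (hρ : ρ = μ ∨ ρ = μ * N.adjugate 3 3) (hρh : ρ.IsHomogeneous (2 * k + 3))
    (hev : Even (finrank ℂ (Submodule.span ℂ {f : MvPolynomial (Fin 3) ℂ ⧸ Ideal.span {N.det} |
      ∃ s G : MvPolynomial (Fin 3) ℂ, s.IsHomogeneous (k + 3) ∧ G.IsHomogeneous 3 ∧
        N.det ∣ s ^ 2 - ρ * G ∧ Ideal.Quotient.mk (Ideal.span {N.det}) s = f}))) :
    (Ideal.span {aeval (Fin.cons 1 X : Fin 6 → MvPolynomial (Fin 5) ℂ) F}).IsPrime ∧
      Nonempty (FractionRing (MvPolynomial (Fin 5) ℂ ⧸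
          Ideal.span {aeval (Fin.cons 1 X : Fin 6 → MvPolynomial (Fin 5) ℂ) F}) ≃ₐ[ℂ]
        FractionRing (MvPolynomial (Fin 4) ℂ)) := by
  rcases hρ with rfl | hρ
  · exact rational_of_odd F hF hs w N hN hQ hD k ρ hρh hμi hsp hμD hev
  · obtain ⟨c, hP, hNc, hr⟩ := exists_cub F hF hs w N hN hQ
    have hdet : N.det = C 81 * c.disc := by rw [hNc, three_smul_det]; rfl
    have hadj : N.adjugate 3 3 = C 27 * (c.Nm (X : Fin 3 → P3)).adjugate 3 3 := by
      rw [hNc, three_smul_adj]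
    have h81 : (81 : ℂ) ≠ 0 := by norm_num
    have hirr : Irreducible c.disc :=
      irreducible_of_smooth (by norm_num) c.disc_hom (smooth_scale hdet hD)
    have h33 := adj33_not_dvd hirr
    have h330 : (c.Nm (X : Fin 3 → P3)).adjugate 3 3 ≠ 0 := fun h => h33 (h ▸ dvd_zero _)
    have ha0 : N.adjugate 3 3 ≠ 0 := by
      rw [hadj]
      exact mul_ne_zero (by rw [Ne, C_eq_zero]; norm_num) h330
    obtain ⟨n, hn, h33h⟩ := c.adj_hom 3 3
    have hw : Helper16.wt 3 = 0 := rfl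
    rw [hw] at hn
    have hn' : n = 3 := by omega
    subst hn'
    have hah : (N.adjugate 3 3).IsHomogeneous 3 := by
      rw [hadj]; exact h33h.C_mul 27
    obtain ⟨a, b, ha, hb, hab⟩ := Helper16.hom_factor (hρ ▸ hρh) (mul_ne_zero hμi.ne_zero ha0)
    have hb3 : b = 3 := hb.inj_right hah ha0
    have ha2 : a = 2 * k := by omega
    subst ha2
    have hμs : ∀ π, Irreducible π → π ∣ μ → ∃ g h, ¬ π ∣ h ∧ π ∣ g ^ 2 - N.det * h ^ 2 := by
      intro π hπ hd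
      obtain ⟨g, h, h1, h2⟩ := hsp
      have has : Associated π μ := hπ.associated_of_dvd hμi hd
      exact ⟨g, h, fun h3 => h1 (has.symm.dvd.trans h3), hd.trans h2⟩
    refine rational_of_not_unique F hF hs w N hN hQ hD k μ ha hμN hμs ?_
    intro hex
    have h1 := finrank_sig_eq_one (δ := N.det) (h := μ * N.adjugate 3 3) (k := k) hex
    have h2 : Even (finrank ℂ (Sig N.det (μ * N.adjugate 3 3) k)) := by
      rw [← hρ]
      exact hev
    rw [h1] at h2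
    exact absurd h2 (by decide)

end Pool.Agent.Helper29.OS
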