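import Mathlib
import Pool.Agent.Helper29.OS.DetNU
import Pool.Agent.Helper89.VE.VRat
import Pool.Agent.Helper64.HA.Ve
import Pool.Agent.Helper82.HP.TwoSec

set_option autoImplicit false

/-!
Project OS: a cubic fourfold containing a plane whose quadric surface bundle is similar to the one
of a Verra fourfold with a rational section of the second projection is rational.
-/

namespace Pool.Agent.Helper29.OS

open MvPolynomial Pool.Agent.Helper29.HP Pool.Agent.Helper89.VE Pool.Agent.Helper16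

/-- a rational section of the second projection in homogeneous coordinates -/
theorem section_hom {a : Cof} (y : Fin 4 → KK) (hy : y ≠ 0)
    (hy0 : y ⬝ᵥ ((VU a).map psiK).mulVec y = 0) :
    ∃ (d : ℕ) (e : Fin 4 → P3), e ≠ 0 ∧
      (∀ i, (e i).IsHomogeneous (d + (![0, 0, 0, 1] : Fin 4 → ℕ) i)) ∧
      e ⬝ᵥ (VU a).mulVec e = 0 := by
  obtain ⟨D, m, q, p, hq0, hq, hp, hpy⟩ := Pool.Agent.Helper82.HP.lift_family_frac (L := KK) y
    (![0, 0, 0, 1] : Fin 4 → ℕ)
  have hqK : psiK q ≠ 0 := by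
    change algebraMap AA KK (psi q) ≠ 0
    rw [Ne, map_eq_zero_iff _ (IsFractionRing.injective AA KK)]
    exact psi_ne_zero hq hq0
  have hpy' : (fun i => psiK (p i)) = psiK q • y := by
    funext i
    exact hpy i
  refine ⟨D, p, ?_, hp, ?_⟩
  · rintro rfl
    apply hy
    funext i
    have h1 := congrFun hpy' i
    simp only [Pi.zero_apply, map_zero, Pi.smul_apply, smul_eq_mul] at h1
    exact (mul_eq_zero.mp h1.symm).resolve_left hqK
  · have hhom : (p ⬝ᵥ (VU a).mulVec p).IsHomogeneous (2 * D + 2) := by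
      rw [VU, bord_form]
      apply IsHomogeneous.add
      · simp only [dotProduct, Matrix.mulVec]
        apply IsHomogeneous.sum
        intro i _
        have hpi : ∀ i : Fin 3, (p i.castSucc).IsHomogeneous D := by
          intro i
          have := hp i.castSucc
          fin_cases i <;> exact this
        have h1 : (∑ k, NU a i k * p k.castSucc).IsHomogeneous (2 + D) := by
          apply IsHomogeneous.sum
          intro k _
          exact (NU_hom a i k).mul (hpi k)
        have h2 := (hpi i).mul h1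
        rw [show D + (2 + D) = 2 * D + 2 by ring] at h2
        exact h2
      · have h1 : (p 3).IsHomogeneous (D + 1) := hp 3
        have h2 := h1.mul h1
        rw [show D + 1 + (D + 1) = 2 * D + 2 by ring] at h2
        exact h2
    by_contra hne
    refine psi_ne_zero hhom hne ?_
    have hinj := IsFractionRing.injective AA KK
    apply hinj
    rw [map_zero]
    have h1 : psiK (p ⬝ᵥ (VU a).mulVec p) = 0 := by
      have h2 := Pool.Agent.Helper82.HP.map_dot (psiK : P3 →+* KK) (VU a) p p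
      have h3 : (fun i => (psiK : P3 →+* KK) (p i)) = psiK q • y := hpy'
      rw [h3] at h2
      have h4 : (VU a).map (psiK : P3 →+* KK) = (VU a).map psiK := rfl
      rw [h4, Matrix.mulVec_smul, smul_dotProduct, dotProduct_smul, hy0, smul_zero, smul_zero] at h2
      exact h2
    exact h1

/-- the cubic fourfold is rational as soon as the second projection of the associated Verra
fourfold has a rational section -/
theorem rat4_of_section {c : Cub (I6 → ℂ)} (hP : c.Iso P0) (hirr : Irreducible c.disc) {a : Cof}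
    (ha : a.Symm) (hdet : (MX a).det = c.disc)
    (hsm : ∀ z : Fin 3 → ℂ, z ≠ 0 → eval z c.disc = 0 → ∃ i, eval z (pderiv i c.disc) ≠ 0)
    (μ : P3) {n : ℕ} (hμ : μ.IsHomogeneous n)
    (hμδ : ¬ c.disc ∣ μ)
    (hsp : ∀ π : P3, Irreducible π → π ∣ μ → ∃ g h : P3, ¬ π ∣ h ∧ π ∣ g ^ 2 - c.disc * h ^ 2)
    (i : Fin 4) (j : Fin 3) (s : P3)
    (hi : ¬ c.disc ∣ (c.Nm (X : Fin 3 → P3)).adjugate i i)
    (hj : ¬ c.disc ∣ (MX a).adjugate j j)
    (hs : c.disc ∣ s ^ 2 - μ * (c.Nm (X : Fin 3 → P3)).adjugate i i * (MX a).adjugate j j)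
    (y : Fin 4 → KK) (hy : y ≠ 0) (hy0 : y ⬝ᵥ ((VU a).map psiK).mulVec y = 0) : c.Rat4 := by
  rcases Pool.Agent.Helper64.HA.ve_sim hirr ha hdet μ hμ hμδ hsp i j s hi hj hs with
    ⟨y, hy, hy0⟩ | ⟨Ψ, ν, hν, hΨ, h⟩
  · exact rat4_of_iso hP y hy hy0
  · obtain ⟨d, e, he0, hed, hee⟩ := section_hom y hy hy0
    intro K _ _ x hx
    obtain ⟨z, y, hz0, hy0, hzy, hgen, D, m, hD, hDh, htr⟩ :=
      Pool.Agent.Helper64.HA.ve_bir hP (VX a) Ψ ν hν hΨ h x hx
    obtain ⟨r, σ, hσ, hz, hy⟩ := vrat ha z y hz0 hy0 hzy e hed hee he0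
      (det_NU_ne_zero ha (by rw [hdet]; exact hsm)) D hD hDh htr
    obtain ⟨τ, hτ, hx'⟩ := hgen _ σ hz hσ hy
    exact ⟨r, τ, hτ, hx'⟩

end Pool.Agent.Helper29.OS
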