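import Pool.Agent.Helper29.HP.Main
import Pool.Agent.Helper5.HP.TwoEx

set_option autoImplicit false

/-!
Project OS: the theta characteristic of the quadric surface bundle of a cubic fourfold has exactly
one section, the one given by the last minor.
-/

namespace Pool.Agent.Helper29.OS

open MvPolynomial Pool.Agent.Helper29.HP Pool.Agent.Helper16

/-- the theta characteristic of the quadric surface bundle has exactly one section -/
theorem theta_unique {c : Cub (I6 → ℂ)}
    (hsm : ∀ z : Fin 3 → ℂ, z ≠ 0 → eval z c.disc = 0 → ∃ i, eval z (pderiv i c.disc) ≠ 0)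
    {g G : P3} (hg : g.IsHomogeneous 3) (hG : G.IsHomogeneous 3)
    (h : c.disc ∣ g ^ 2 - (c.Nm (X : Fin 3 → P3)).adjugate 3 3 * G) :
    ∃ a : ℂ, g = C a * (c.Nm (X : Fin 3 → P3)).adjugate 3 3 := by
  have hδh : c.disc.IsHomogeneous 6 := c.disc_hom
  have hirr : Irreducible c.disc := irreducible_of_smooth (by norm_num) hδh hsm
  have h33 := adj33_not_dvd hirr
  have hδ0 : c.disc ≠ 0 := hirr.ne_zero
  obtain ⟨n3, hn3, h33h⟩ := c.adj_hom 3 3
  have hw : wt 3 = 0 := rfl
  rw [hw] at hn3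
  obtain rfl : n3 = 3 := by omega
  have hN : (c.Nm (X : Fin 3 → P3)).IsSymm := c.Nm_symm _
  have hdetN : (c.Nm (X : Fin 3 → P3)).det = c.disc := rfl
  obtain ⟨N, hNd⟩ : ∃ N, N = c.Nm (X : Fin 3 → P3) := ⟨_, rfl⟩
  have hNhz : ∀ i j, HZ (N i j) (3 - wt i - wt j) := by
    intro i j; rw [hNd]; exact c.Nm_hz i j
  have hadj : ∀ i, ∃ n : ℕ, (n : ℤ) = 3 + wt i ∧ (N.adjugate 3 i).IsHomogeneous n := by
    intro i
    obtain ⟨n, hn, hh⟩ := c.adj_hom 3 i
    rw [hw] at hn
    exact ⟨n, by omega, hNd ▸ hh⟩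
  rw [← hNd] at h h33 h33h hN hdetN ⊢
  have hA : ∀ a b, N.adjugate a b = N.adjugate b a := fun a b => hN.adjugate.apply b a
  -- the products `g * adj 3 i` are divisible by `adj 3 3`
  have key : ∀ i, ∃ q : P3, HZ q (3 + wt i) ∧ c.disc ∣ g * N.adjugate 3 i - N.adjugate 3 3 * q := by
    intro i
    obtain ⟨n, hn, hh⟩ := hadj i
    obtain ⟨q, hq, hd⟩ := Pool.Agent.Helper5.HP.norm_dvd c.disc hδh hsm (x := g * N.adjugate 3 i)
      (y := N.adjugate 3 3) (w := G * N.adjugate i i) (hg.mul hh) h33h (by omega) h33 (by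
        obtain ⟨r, hr⟩ := h
        have h1 := det_dvd_adj N 3 i i 3
        rw [hdetN, hA i 3] at h1
        obtain ⟨t, ht⟩ := h1
        refine ⟨r * N.adjugate 3 i ^ 2 + N.adjugate 3 3 * G * t, ?_⟩
        linear_combination (N.adjugate 3 i ^ 2) * hr + (N.adjugate 3 3 * G) * ht)
    refine ⟨q, ?_, hd⟩
    have h2 := HZ.of_hom hq
    refine h2.congr ?_
    omega
  choose q hq hqd using key
  -- `N q = 0` modulo the discriminant
  have hNq : ∀ j, c.disc ∣ N.mulVec q j := by
    intro j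
    have h1 : c.disc ∣ N.adjugate 3 3 * N.mulVec q j := by
      have h2 : ∑ i, N j i * N.adjugate 3 i = if j = 3 then c.disc else 0 := by
        have h3 := congrFun (congrFun (Matrix.mul_adjugate N) j) 3
        rw [Matrix.mul_apply, hdetN] at h3
        rw [← Finset.sum_congr rfl fun i _ => by rw [hA i 3]] at h3
        rw [h3]
        simp [Matrix.one_apply]
      have h4 : N.adjugate 3 3 * N.mulVec q j = g * (∑ i, N j i * N.adjugate 3 i) -
          ∑ i, N j i * (g * N.adjugate 3 i - N.adjugate 3 3 * q i) := by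
        simp only [Matrix.mulVec, dotProduct, Finset.mul_sum, ← Finset.sum_sub_distrib]
        exact Finset.sum_congr rfl fun i _ => by ring
      rw [h4, h2]
      refine dvd_sub ?_ (Finset.dvd_sum fun i _ => (hqd i).mul_left _)
      split_ifs
      · exact dvd_mul_left _ _
      · rw [mul_zero]; exact dvd_zero _
    exact (hirr.prime.dvd_or_dvd h1).resolve_left h33
  have hNqh : ∀ j, HZ (N.mulVec q j) (6 - wt j) := by
    intro j
    simp only [Matrix.mulVec, dotProduct]
    refine HZ.sum _ _ fun i _ => ?_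
    exact ((hNhz j i).mul (hq i)).congr (by ring)
  have h0 : ∀ j, j ≠ 3 → N.mulVec q j = 0 := by
    intro j hj
    have hwj : wt j = 1 := by
      rcases wt_cases j with ⟨_, h⟩ | ⟨h, _⟩
      · exact h
      · exact absurd h hj
    exact HZ.dvd_zero hδh hδ0 (hNqh j) (by rw [hwj]; norm_num) (hNq j)
  obtain ⟨a, ha⟩ : ∃ a : ℂ, N.mulVec q 3 = C a * c.disc := by
    have h1 := hNqh 3
    rw [hw] at h1
    rcases h1 with h1 | ⟨_, h1⟩
    · exact ⟨0, by rw [h1]; simp⟩
    · exact eq_C_mul_of_dvd hδh hδ0 h1 (hNq 3)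
  have hq3 : q 3 = C a * N.adjugate 3 3 := by
    have h1 : N.adjugate.mulVec (N.mulVec q) 3 = c.disc * q 3 := by
      rw [Matrix.mulVec_mulVec, Matrix.adjugate_mul, hdetN, Matrix.smul_mulVec, Matrix.one_mulVec]
      rfl
    have h2 : N.adjugate.mulVec (N.mulVec q) 3 = N.adjugate 3 3 * (C a * c.disc) := by
      rw [Matrix.mulVec, dotProduct, Finset.sum_eq_single 3]
      · rw [ha]
      · intro b _ hb
        rw [h0 b hb, mul_zero]
      · intro h; exact absurd (Finset.mem_univ _) h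
    have h3 : c.disc * (q 3 - C a * N.adjugate 3 3) = 0 := by
      linear_combination h2 - h1
    exact sub_eq_zero.mp ((mul_eq_zero.mp h3).resolve_left hδ0)
  refine ⟨a, ?_⟩
  have h1 := hqd 3
  have h2 : g * N.adjugate 3 3 - N.adjugate 3 3 * q 3 = N.adjugate 3 3 * (g - q 3) := by ring
  rw [h2] at h1
  have h3 := (hirr.prime.dvd_or_dvd h1).resolve_left h33
  have h4 : (g - q 3).IsHomogeneous 3 := by
    rw [hq3]
    exact hg.sub (h33h.C_mul a)
  have h5 := eq_zero_of_dvd_lt hδh hδ0 h4 (by norm_num) h3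
  rw [← hq3]
  exact sub_eq_zero.mp h5

end Pool.Agent.Helper29.OS
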