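import Mathlib
import Pool.Agent.Helper89.OS.St.X4
import Pool.Agent.Helper29.HP.St.EvenOn
import Pool.Agent.Helper16.CubicDec
import Pool.Agent.Helper89.OS.Dat

set_option autoImplicit false

/-!
Project OS: elements of the lattice `VF` in terms of forms with integral degrees.
-/

namespace Pool.Agent.Helper29.OS

open MvPolynomial Pool.Agent.Helper29.HP Pool.Agent.Helper89.OS Pool.Agent.Helper16 Matrix

variable {δ μ g h : P3} {M : Matrix (Fin 3) (Fin 3) P3} {m e : ℕ}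

theorem HZ.elim {p : P3} {n : ℤ} (hp : HZ p n) : p = 0 ∨ ∃ k : ℕ, (k : ℤ) = n ∧ p.IsHomogeneous k := by
  rcases hp with h | ⟨h1, h2⟩
  · exact Or.inl h
  · exact Or.inr ⟨n.toNat, Int.toNat_of_nonneg h1, h2⟩

theorem HZ.of_nat {p : P3} {n : ℤ} {k : ℕ} (hk : (k : ℤ) = n) (hp : p.IsHomogeneous k) : HZ p n := by
  subst hk
  exact HZ.of_hom hp

theorem notdvd (D : Dat δ μ g h M m e) : ¬ δ ∣ μ := by
  intro hd
  have hδi := irreducible_of_smooth (by norm_num) D.hδ D.hsm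
  obtain ⟨q, hq⟩ := hd
  have hq0 : q ≠ 0 := by
    rintro rfl
    exact D.cur.irr.ne_zero (by rw [hq, mul_zero])
  obtain ⟨a, b, ha, hb, hab⟩ := hom_factor (hq ▸ D.cur.hom) (mul_ne_zero hδi.ne_zero hq0)
  have h1 : a = 6 := ha.inj_right D.hδ hδi.ne_zero
  rcases D.cur.irr.isUnit_or_isUnit hq with hu | hu
  · exact hδi.not_isUnit hu
  · have hb0 : b ≠ 0 := by omega
    exact (hu.map (eval (0 : Fin 3 → ℂ))).ne_zero (hom_eval_zero hb (by omega))

theorem mem_VF (D : Dat δ μ g h M m e) {j : ℤ} {v : W4 (KG μ)} :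
    v ∈ VF μ δ M.adjugate m j ↔ ∃ (f : P3) (a : Fin 3 → P3), v = (ev μ f, fun i => ev μ (a i)) ∧
      HZ f (j + m + 2) ∧ f ^ 2 ∈ Imd μ δ ∧ (∀ i, HZ (a i) (j + m)) ∧
      a ⬝ᵥ M.adjugate.mulVec a ∈ Imd μ δ := by
  have hnd := notdvd D
  rw [VF, Submodule.mem_prod]
  constructor
  · rintro ⟨h1, h2⟩
    obtain ⟨f, hf, hfz, hf2⟩ : ∃ f : P3, ev μ f = v.1 ∧ HZ f (j + m + 2) ∧ f ^ 2 ∈ Imd μ δ := by
      split_ifs at h1 with h0
      · obtain ⟨f, hf, hfv⟩ := h1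
        have h3 := (mem_IZ D.hδ D.hsm D.cur.hom hnd).mp hf
        exact ⟨f, hfv, HZ.of_nat (Int.toNat_of_nonneg h0) h3.1, h3.2⟩
      · rw [Submodule.mem_bot] at h1
        exact ⟨0, by rw [map_zero, h1], HZ.zero _, by
          rw [zero_pow two_ne_zero]; exact Ideal.zero_mem _⟩
    obtain ⟨a, ha, haz, ha2⟩ : ∃ a : Fin 3 → P3, (fun i => ev μ (a i)) = v.2 ∧
        (∀ i, HZ (a i) (j + m)) ∧ a ⬝ᵥ M.adjugate.mulVec a ∈ Imd μ δ := by
      split_ifs at h2 with h0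
      · obtain ⟨a, ha, hav⟩ := h2
        have h3 := (mem_IA D.hδ D.hsm D.cur.hom hnd D.hMs D.hM D.hMd).mp ha
        exact ⟨a, hav, fun i => HZ.of_nat (Int.toNat_of_nonneg h0) (h3.1 i), h3.2⟩
      · rw [Submodule.mem_bot] at h2
        refine ⟨0, ?_, fun i => HZ.zero _, by rw [zero_dotProduct]; exact Ideal.zero_mem _⟩
        rw [h2]
        funext i
        exact map_zero _
    exact ⟨f, a, Prod.ext hf.symm ha.symm, hfz, hf2, haz, ha2⟩
  · rintro ⟨f, a, rfl, hf, hf2, ha, ha2⟩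
    constructor
    · rcases hf with hf | ⟨h0, hf⟩
      · rw [hf]
        change ev μ 0 ∈ _
        rw [map_zero]
        exact Submodule.zero_mem _
      · rw [if_pos h0]
        exact ⟨f, (mem_IZ D.hδ D.hsm D.cur.hom hnd).mpr ⟨hf, hf2⟩, rfl⟩
    · by_cases h0 : 0 ≤ j + m
      · rw [if_pos h0]
        refine ⟨a, (mem_IA D.hδ D.hsm D.cur.hom hnd D.hMs D.hM D.hMd).mpr ⟨fun i => ?_, ha2⟩, rfl⟩
        rcases ha i with h1 | ⟨_, h1⟩
        · rw [h1]; exact isHomogeneous_zero _ _ _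
        · exact h1
      · have h1 : a = 0 := by
          funext i
          rcases ha i with h1 | ⟨h1, _⟩
          · exact h1
          · exact absurd h1 h0
        rw [h1]
        have h2 : (fun i => ev μ ((0 : Fin 3 → P3) i)) = 0 := by
          funext i
          exact map_zero _
        change (fun i => ev μ ((0 : Fin 3 → P3) i)) ∈ _
        rw [h2]
        exact Submodule.zero_mem _

theorem hz_Imd (D : Dat δ μ g h M m e) {p : P3} {n : ℤ} (hp : HZ p n) (h : p ∈ Imd μ δ) :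
    ∃ t r : P3, p = μ * t + δ * r ∧ HZ t (n - (2 * m + 1)) ∧ HZ r (n - 6) := by
  rcases HZ.elim hp with h0 | ⟨k, hk, hpk⟩
  · exact ⟨0, 0, by rw [h0]; ring, HZ.zero _, HZ.zero _⟩
  · obtain ⟨t, r, h1, h2, h3⟩ := hom_Imd D.hδ D.cur.hom hpk h
    refine ⟨t, r, h1, ?_, ?_⟩
    · rcases h2 with h2 | ⟨h2, h4⟩
      · exact Or.inl h2
      · exact HZ.of_nat (by push_cast [Nat.cast_sub h2]; omega) h4
    · rcases h3 with h3 | ⟨h3, h4⟩
      · exact Or.inl h3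
      · exact HZ.of_nat (by push_cast [Nat.cast_sub h3]; omega) h4

theorem hz_mul_mem (D : Dat δ μ g h M m e) {f f' : P3} {n n' : ℤ} (hf : HZ f n) (hf' : HZ f' n')
    (h1 : f ^ 2 ∈ Imd μ δ) (h2 : f' ^ 2 ∈ Imd μ δ) : f * f' ∈ Imd μ δ := by
  rcases HZ.elim hf with h0 | ⟨k, hk, hfk⟩
  · rw [h0, zero_mul]; exact Ideal.zero_mem _
  rcases HZ.elim hf' with h0 | ⟨k', hk', hfk'⟩
  · rw [h0, mul_zero]; exact Ideal.zero_mem _
  exact mul_mem D.hδ D.hsm D.cur.hom (notdvd D) hfk hfk' h1 h2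

theorem δ_mem (μ δ x : P3) : δ * x ∈ Imd μ δ :=
  Ideal.mul_mem_right _ _ (Ideal.subset_span (by simp))

theorem μ_mem (μ δ x : P3) : μ * x ∈ Imd μ δ :=
  Ideal.mul_mem_right _ _ (Ideal.subset_span (by simp))

theorem M_hz (D : Dat δ μ g h M m e) (i j : Fin 3) : HZ (M i j) 2 :=
  HZ.of_nat (by norm_num) (D.hM i j)

theorem A_hom (D : Dat δ μ g h M m e) (i j : Fin 3) : (M.adjugate i j).IsHomogeneous 4 := by
  have h2 : ∀ p q r s : Fin 3, (M p q * M r s).IsHomogeneous 4 :=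
    fun p q r s => (D.hM p q).mul (D.hM r s)
  rw [Matrix.adjugate_fin_three]
  fin_cases i <;> fin_cases j
  exacts [(h2 1 1 2 2).sub (h2 1 2 2 1), (h2 0 1 2 2).neg.add (h2 0 2 2 1),
    (h2 0 1 1 2).sub (h2 0 2 1 1), (h2 1 0 2 2).neg.add (h2 1 2 2 0),
    (h2 0 0 2 2).sub (h2 0 2 2 0), (h2 0 0 1 2).neg.add (h2 0 2 1 0),
    (h2 1 0 2 1).sub (h2 1 1 2 0), (h2 0 0 2 1).neg.add (h2 0 1 2 0),
    (h2 0 0 1 1).sub (h2 0 1 1 0)]

theorem A_hz (D : Dat δ μ g h M m e) (i j : Fin 3) : HZ (M.adjugate i j) 4 :=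
  HZ.of_nat (by norm_num) (A_hom D i j)

theorem A_symm (D : Dat δ μ g h M m e) (i j : Fin 3) : M.adjugate i j = M.adjugate j i :=
  D.hMs.adjugate.apply j i

/-- the entries of `A a` are square roots of elements of the ideal -/
theorem Aa_sq (D : Dat δ μ g h M m e) {a : Fin 3 → P3}
    (ha : a ⬝ᵥ M.adjugate.mulVec a ∈ Imd μ δ) (i : Fin 3) :
    (M.adjugate.mulVec a i) ^ 2 ∈ Imd μ δ := by
  have hd : ∀ p q, δ ∣ M.adjugate i p * M.adjugate i q - M.adjugate i i * M.adjugate p q := by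
    intro p q
    have h1 := det_dvd_adj M p i i q
    rw [D.hMd, A_symm D p i, mul_comm (M.adjugate p q)] at h1
    exact h1
  have h2 : δ ∣ (M.adjugate.mulVec a i) ^ 2 - M.adjugate i i * (a ⬝ᵥ M.adjugate.mulVec a) := by
    have e : (M.adjugate.mulVec a i) ^ 2 - M.adjugate i i * (a ⬝ᵥ M.adjugate.mulVec a) =
        ∑ p, ∑ q, a p * a q * (M.adjugate i p * M.adjugate i q -
          M.adjugate i i * M.adjugate p q) := by
      simp only [mulVec, dotProduct, Fin.sum_univ_three]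
      ring
    rw [e]
    exact Finset.dvd_sum fun p _ => Finset.dvd_sum fun q _ => (hd p q).mul_left _
  obtain ⟨r, hr⟩ := h2
  have e : (M.adjugate.mulVec a i) ^ 2 = M.adjugate i i * (a ⬝ᵥ M.adjugate.mulVec a) + δ * r := by
    linear_combination hr
  rw [e]
  exact Ideal.add_mem _ (Ideal.mul_mem_left _ _ ha) (δ_mem _ _ _)

end Pool.Agent.Helper29.OS
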